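import Pool.Agent.helper91.HZF.Spec
import Pool.Agent.helper55.NT.Threshold

/-!
# Project HZF, row TTB: the arithmetic of the upper bound
-/

set_option autoImplicit false

namespace Pool.Agent.HZF

open Finset Pool.Agent.helper38.Neg Pool.Agent.helper55.NT Pool.Agent.LN

lemma TTB_lg_le (n : ℕ) : lg n + 1 ≤ n + 2 := by
  unfold lg
  have := Nat.log_lt_self 2 (show n + 2 ≠ 0 by omega)
  omega

lemma TTB_two_pow (n : ℕ) : 2 ^ (lg n + 1) ≤ (n + 2) ^ 2 := by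
  have h1 : 2 ^ lg n ≤ n + 2 := Nat.pow_log_le_self 2 (by omega)
  calc 2 ^ (lg n + 1) = 2 ^ lg n * 2 := by rw [pow_succ]
    _ ≤ (n + 2) * (n + 2) := Nat.mul_le_mul h1 (by omega)
    _ = (n + 2) ^ 2 := by ring

lemma TTB_lpow (n k : ℕ) : (lg n + 1) ^ k ≤ (n + 2) ^ 4 * (k + 2) ^ (2 * k) := by
  have hm : 1 ≤ (n + 2) ^ 4 := Nat.one_le_pow _ _ (by omega)
  have hK : 1 ≤ (k + 2) ^ (2 * k) := Nat.one_le_pow _ _ (by omega)
  set l := lg n + 1 with hl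
  by_cases h : l ≤ (k + 2) ^ 2
  · calc l ^ k ≤ ((k + 2) ^ 2) ^ k := Nat.pow_le_pow_left h k
      _ = (k + 2) ^ (2 * k) := by rw [pow_mul]
      _ ≤ (n + 2) ^ 4 * (k + 2) ^ (2 * k) := Nat.le_mul_of_pos_left _ hm
  · push Not at h
    set r := Nat.sqrt l with hr
    have h1 : l < (r + 1) ^ 2 := by
      rw [pow_two]; exact Nat.lt_succ_sqrt l
    have h2 : r * r ≤ l := Nat.sqrt_le l
    have h3 : k ≤ r := by
      by_contra h4
      push Not at h4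
      have h5 : (r + 1) ^ 2 ≤ (k + 2) ^ 2 := Nat.pow_le_pow_left (by omega) 2
      omega
    have h6 : r + 1 ≤ 2 ^ r := Nat.lt_two_pow_self
    calc l ^ k ≤ ((r + 1) ^ 2) ^ k := Nat.pow_le_pow_left h1.le k
      _ = (r + 1) ^ (2 * k) := by rw [pow_mul]
      _ ≤ (r + 1) ^ (2 * r) := Nat.pow_le_pow_right (by omega) (by omega)
      _ ≤ (2 ^ r) ^ (2 * r) := Nat.pow_le_pow_left h6 _
      _ = 2 ^ (r * r * 2) := by rw [← pow_mul]; congr 1; ring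
      _ ≤ 2 ^ (l * 2) := Nat.pow_le_pow_right (by norm_num) (by omega)
      _ = (2 ^ l) ^ 2 := by rw [pow_mul]
      _ ≤ ((n + 2) ^ 2) ^ 2 := Nat.pow_le_pow_left (TTB_two_pow n) 2
      _ = (n + 2) ^ 4 := by rw [← pow_mul]
      _ ≤ (n + 2) ^ 4 * (k + 2) ^ (2 * k) := Nat.le_mul_of_pos_right _ hK

lemma TTB_K (n k j : ℕ) : (k + 2) ^ j ≤ (n + 2) ^ j * (k + 2) ^ (j * k) := by
  rcases Nat.eq_zero_or_pos k with h | h
  · subst h
    simp only [Nat.mul_zero, pow_zero, mul_one]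
    exact Nat.pow_le_pow_left (by omega) j
  · calc (k + 2) ^ j ≤ (k + 2) ^ (j * k) :=
          Nat.pow_le_pow_right (by omega) (Nat.le_mul_of_pos_right _ h)
      _ ≤ (n + 2) ^ j * (k + 2) ^ (j * k) :=
          Nat.le_mul_of_pos_left _ (Nat.one_le_pow _ _ (by omega))

theorem TTB : TTB_stmt := by
  refine ⟨31, fun n s k => ?_⟩
  unfold TT
  have hl1 := TTB_lg_le n
  have hlk := TTB_lpow n k
  have hlpos : 1 ≤ lg n + 1 := by omega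
  have hK8 := TTB_K n k 8
  have hK2 := TTB_K n k 2
  generalize lg n + 1 = l at hl1 hlk hlpos ⊢
  obtain ⟨m, hm⟩ : ∃ m, m = n + 2 := ⟨_, rfl⟩
  obtain ⟨K, hK⟩ : ∃ K, K = k + 2 := ⟨_, rfl⟩
  rw [← hm, ← hK] at hlk hK8 hK2
  rw [← hm] at hl1
  rw [← hm, ← hK]
  have hm2 : 2 ≤ m := by omega
  have hKK2 : 2 ≤ K := by omega
  have hkK : k ≤ K := by omega
  have hnm : n ≤ m := by omega
  -- factor 1
  have f1 : l * k + 1 ≤ m * K := by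
    have : l * k ≤ m * k := Nat.mul_le_mul_right _ hl1
    rw [hK, Nat.mul_add]; omega
  have f1' : l * k + 1 + 1 ≤ m * K := by
    have : l * k ≤ m * k := Nat.mul_le_mul_right _ hl1
    rw [hK, Nat.mul_add]; omega
  have hkk : 16 * k ^ 2 + 2 ≤ 16 * K ^ 2 := by
    rw [hK]; nlinarith
  have h32 : 32 ≤ K ^ 5 := by
    calc 32 = 2 ^ 5 := by norm_num
      _ ≤ K ^ 5 := Nat.pow_le_pow_left hKK2 5
  have h16 : 16 ≤ K ^ 4 := by
    calc 16 = 2 ^ 4 := by norm_num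
      _ ≤ K ^ 4 := Nat.pow_le_pow_left hKK2 4
  have h4 : 4 ≤ K ^ 2 := by
    calc 4 = 2 ^ 2 := by norm_num
      _ ≤ K ^ 2 := Nat.pow_le_pow_left hKK2 2
  -- factor 2
  have f2 : (16 * k ^ 2 + 1) * (2 * l) + 1 ≤ K ^ 7 * l := by
    calc (16 * k ^ 2 + 1) * (2 * l) + 1 ≤ (16 * k ^ 2 + 2) * (2 * l) := by nlinarith
      _ ≤ (16 * K ^ 2) * (2 * l) := Nat.mul_le_mul_right _ hkk
      _ = 32 * K ^ 2 * l := by ring
      _ ≤ K ^ 5 * K ^ 2 * l := by gcongr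
      _ = K ^ 7 * l := by ring
  have f2' : ((16 * k ^ 2 + 1) * (2 * l) + 1) ^ (k + 1) ≤
      K ^ (7 * k) * K ^ 7 * ((m ^ 4 * K ^ (2 * k)) * m) := by
    calc ((16 * k ^ 2 + 1) * (2 * l) + 1) ^ (k + 1) ≤ (K ^ 7 * l) ^ (k + 1) :=
          Nat.pow_le_pow_left f2 _
      _ = K ^ (7 * k) * K ^ 7 * (l ^ k * l) := by
          rw [mul_pow, ← pow_mul, pow_succ l k, ← pow_add]; congr 2
      _ ≤ K ^ (7 * k) * K ^ 7 * ((m ^ 4 * K ^ (2 * k)) * m) := by gcongr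
  -- factor 3
  have f3 : (4 * (16 * k ^ 2 + 1 + 1) ^ 2) ^ k ≤ K ^ (14 * k) := by
    have g1 : 4 * (16 * k ^ 2 + 1 + 1) ^ 2 ≤ K ^ 14 := by
      calc 4 * (16 * k ^ 2 + 1 + 1) ^ 2 ≤ K ^ 2 * (K ^ 4 * K ^ 2) ^ 2 := by
            gcongr
            calc 16 * k ^ 2 + 1 + 1 ≤ 16 * K ^ 2 := hkk
              _ ≤ K ^ 4 * K ^ 2 := by gcongr
        _ = K ^ 14 := by ring
    calc (4 * (16 * k ^ 2 + 1 + 1) ^ 2) ^ k ≤ (K ^ 14) ^ k := Nat.pow_le_pow_left g1 k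
      _ = K ^ (14 * k) := by rw [pow_mul]
  -- factor 4
  have hm6 : 64 ≤ m ^ 6 := by
    calc 64 = 2 ^ 6 := by norm_num
      _ ≤ m ^ 6 := Nat.pow_le_pow_left hm2 6
  have f4 : 2 * s + 2 * n * (6 * n + 2 * (2 * l) + 10) + 8 + 1 ≤ (s + 1) * m ^ 8 := by
    have g1 : 6 * n + 2 * (2 * l) + 10 ≤ 15 * m := by omega
    have g2 : 2 * n * (6 * n + 2 * (2 * l) + 10) ≤ 2 * m * (15 * m) := by gcongr
    have g3 : 4 ≤ m * m := Nat.mul_le_mul hm2 hm2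
    have g4 : 2 * s + 2 * n * (6 * n + 2 * (2 * l) + 10) + 8 + 1 ≤ (s + 1) * (64 * m ^ 2) := by
      nlinarith [Nat.zero_le s, Nat.zero_le (s * (m * m))]
    calc 2 * s + 2 * n * (6 * n + 2 * (2 * l) + 10) + 8 + 1 ≤ (s + 1) * (64 * m ^ 2) := g4
      _ ≤ (s + 1) * (m ^ 6 * m ^ 2) := by gcongr
      _ = (s + 1) * m ^ 8 := by ring
  have hK14 : 1 ≤ K ^ (14 * k) := Nat.one_le_pow _ _ (by omega)
  have f5 : (4 * (16 * k ^ 2 + 1 + 1) ^ 2) ^ k *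
      (2 * s + 2 * n * (6 * n + 2 * (2 * l) + 10) + 8) + 1 ≤ K ^ (14 * k) * ((s + 1) * m ^ 8) := by
    calc (4 * (16 * k ^ 2 + 1 + 1) ^ 2) ^ k *
          (2 * s + 2 * n * (6 * n + 2 * (2 * l) + 10) + 8) + 1
        ≤ K ^ (14 * k) * (2 * s + 2 * n * (6 * n + 2 * (2 * l) + 10) + 8) + K ^ (14 * k) := by
          gcongr
      _ = K ^ (14 * k) * (2 * s + 2 * n * (6 * n + 2 * (2 * l) + 10) + 8 + 1) := by ring
      _ ≤ K ^ (14 * k) * ((s + 1) * m ^ 8) := by gcongr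
  have f6 : 4 * (l * k + 1 + 1) ^ 2 ≤ m ^ 6 * K ^ (2 * k) := by
    calc 4 * (l * k + 1 + 1) ^ 2 ≤ m ^ 2 * (m * K) ^ 2 := by
          gcongr
          calc 4 = 2 ^ 2 := by norm_num
            _ ≤ m ^ 2 := Nat.pow_le_pow_left hm2 2
      _ = m ^ 4 * K ^ 2 := by ring
      _ ≤ m ^ 4 * (m ^ 2 * K ^ (2 * k)) := by gcongr
      _ = m ^ 6 * K ^ (2 * k) := by ring
  have f7 : (l * k + 1) * (((16 * k ^ 2 + 1) * (2 * l) + 1) ^ (k + 1) *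
      ((4 * (16 * k ^ 2 + 1 + 1) ^ 2) ^ k *
        (2 * s + 2 * n * (6 * n + 2 * (2 * l) + 10) + 8) + 1)) ≤
      (s + 1) * m ^ 22 * K ^ (31 * k) := by
    calc (l * k + 1) * (((16 * k ^ 2 + 1) * (2 * l) + 1) ^ (k + 1) *
          ((4 * (16 * k ^ 2 + 1 + 1) ^ 2) ^ k *
            (2 * s + 2 * n * (6 * n + 2 * (2 * l) + 10) + 8) + 1))
        ≤ (m * K) * ((K ^ (7 * k) * K ^ 7 * ((m ^ 4 * K ^ (2 * k)) * m)) *
            (K ^ (14 * k) * ((s + 1) * m ^ 8))) := by gcongr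
      _ = (s + 1) * m ^ 14 * (K ^ 8 * (K ^ (7 * k) * K ^ (2 * k) * K ^ (14 * k))) := by ring
      _ ≤ (s + 1) * m ^ 14 * ((m ^ 8 * K ^ (8 * k)) * (K ^ (7 * k) * K ^ (2 * k) * K ^ (14 * k))) := by
          gcongr
      _ = (s + 1) * m ^ 22 * (K ^ (8 * k) * K ^ (7 * k) * K ^ (2 * k) * K ^ (14 * k)) := by ring
      _ = (s + 1) * m ^ 22 * K ^ (31 * k) := by
          rw [← pow_add, ← pow_add, ← pow_add]
          congr 2
          ring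
  have hs : 1 ≤ s + 1 := by omega
  have hX : 1 ≤ K ^ (31 * k) := Nat.one_le_pow _ _ (by omega)
  have e1 : n ≤ (s + 1) * m ^ 22 * K ^ (31 * k) := by
    calc n ≤ m ^ 1 := by rw [pow_one]; exact hnm
      _ ≤ m ^ 22 := Nat.pow_le_pow_right (by omega) (by norm_num)
      _ ≤ (s + 1) * m ^ 22 := Nat.le_mul_of_pos_left _ hs
      _ ≤ (s + 1) * m ^ 22 * K ^ (31 * k) := Nat.le_mul_of_pos_right _ hX
  have e2 : m ^ 6 * K ^ (2 * k) ≤ (s + 1) * m ^ 22 * K ^ (31 * k) := by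
    calc m ^ 6 * K ^ (2 * k) ≤ m ^ 22 * K ^ (31 * k) := by
          gcongr <;> omega
      _ = 1 * m ^ 22 * K ^ (31 * k) := by ring
      _ ≤ (s + 1) * m ^ 22 * K ^ (31 * k) := by gcongr
  calc n + ((l * k + 1) * (((16 * k ^ 2 + 1) * (2 * l) + 1) ^ (k + 1) *
        ((4 * (16 * k ^ 2 + 1 + 1) ^ 2) ^ k *
          (2 * s + 2 * n * (6 * n + 2 * (2 * l) + 10) + 8) + 1)) + 4 * (l * k + 1 + 1) ^ 2)
      ≤ 3 * ((s + 1) * m ^ 22 * K ^ (31 * k)) := by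
        have := f6.trans e2
        omega
    _ ≤ m ^ 2 * ((s + 1) * m ^ 22 * K ^ (31 * k)) := by
        gcongr
        calc 3 ≤ 2 ^ 2 := by norm_num
          _ ≤ m ^ 2 := Nat.pow_le_pow_left hm2 2
    _ = (s + 1) * m ^ 24 * K ^ (31 * k) := by ring
    _ ≤ (s + 1) * m ^ 31 * K ^ (31 * k) := by
        gcongr <;> omega

end Pool.Agent.HZF
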