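import Pool.Agent.helper91.HZF.Spec
import Pool.Agent.helper55.NT.Threshold

/-!
# Project HZF, row UPP: polynomial size for `k log k = O(log n)`
-/

set_option autoImplicit false

namespace Pool.Agent.HZF

open Finset Pool.Agent.helper38.Neg Pool.Agent.helper55.NT Pool.Agent.LN

lemma UPP_bound (c a k n : ℕ) (h : k * lg k ≤ a * lg n) :
    (k + 2) ^ (c * k) ≤ (n + 2) ^ (2 * c * a) := by
  have h1 : k + 2 ≤ 2 ^ (lg k + 1) := (lt_two_pow_lg k).le
  have h2 : 1 ≤ lg k := by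
    unfold lg
    exact Nat.log_pos (by norm_num) (by omega)
  have h3 : 2 ^ lg n ≤ n + 2 := Nat.pow_log_le_self 2 (by omega)
  have h4 : (lg k + 1) * (c * k) ≤ lg n * (2 * c * a) := by
    calc (lg k + 1) * (c * k) ≤ (2 * lg k) * (c * k) := Nat.mul_le_mul_right _ (by omega)
      _ = 2 * c * (k * lg k) := by ring
      _ ≤ 2 * c * (a * lg n) := Nat.mul_le_mul_left _ h
      _ = lg n * (2 * c * a) := by ring
  calc (k + 2) ^ (c * k) ≤ (2 ^ (lg k + 1)) ^ (c * k) := Nat.pow_le_pow_left h1 _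
    _ = 2 ^ ((lg k + 1) * (c * k)) := (pow_mul _ _ _).symm
    _ ≤ 2 ^ (lg n * (2 * c * a)) := Nat.pow_le_pow_right (by norm_num) h4
    _ = (2 ^ lg n) ^ (2 * c * a) := pow_mul _ _ _
    _ ≤ (n + 2) ^ (2 * c * a) := Nat.pow_le_pow_left h3 _

theorem UPP (h : FPT_stmt) : UPP_stmt := by
  obtain ⟨c, hc⟩ := h
  intro k A ⟨a, ha⟩ ⟨p, hp⟩
  refine ⟨(p + 1) * (Polynomial.X + 2) ^ c * (Polynomial.X + 2) ^ (2 * c * a), fun n => ?_⟩
  obtain ⟨s, hs, C, o, hC⟩ := hp n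
  obtain ⟨s', hs', C', o', h1, h2⟩ := hc n s (k n) C o
  refine ⟨s', ?_, C', o', ?_, h2⟩
  · have e : ((p + 1) * (Polynomial.X + 2) ^ c * (Polynomial.X + 2) ^ (2 * c * a)).eval n =
        (p.eval n + 1) * (n + 2) ^ c * (n + 2) ^ (2 * c * a) := by
      simp [Polynomial.eval_mul, Polynomial.eval_pow, Polynomial.eval_add]
    show s' ≤ ((p + 1) * (Polynomial.X + 2) ^ c * (Polynomial.X + 2) ^ (2 * c * a)).eval n
    rw [e]
    calc s' ≤ (s + 1) * (n + 2) ^ c * (k n + 2) ^ (c * k n) := hs'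
      _ ≤ (p.eval n + 1) * (n + 2) ^ c * (n + 2) ^ (2 * c * a) := by
          have := UPP_bound c a (k n) n (ha n)
          gcongr
  · intro x
    rw [h1 x]
    exact hC x

end Pool.Agent.HZF
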